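import Mathlib

/-!
# Half-circle images under interlacing rational functions need not be convex

For real `p_1 < ... < p_k` and positive `α_1, ..., α_k` let `R(z) = ∑ α_l / (z - p_l)`.
For every `k ≥ 3` and every admissible index `j` we give such an `R` for which the image of the
open upper half of the circle with diameter `[p_j, p_{j+1}]` is not the boundary of any closed
convex subset of the plane.
-/

namespace Pool.Agent.Results.MP_8e2370_an.HalfCircleNotConvex

open Complex Filter Topology

/-- `R(z) = ∑_l α_l / (z - p_l)`. -/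
noncomputable def R (k : ℕ) (p α : Fin k → ℝ) (z : ℂ) : ℂ :=
  ∑ l, (α l : ℂ) / (z - (p l : ℂ))

/-- The open upper half of the circle with diameter `[a, b]`. -/
def upperHalfCircle (a b : ℝ) : Set ℂ :=
  {z | ‖z - (((a + b) / 2 : ℝ) : ℂ)‖ = (b - a) / 2 ∧ 0 < z.im}

/-- planar cross product -/
def cr (u v : ℂ) : ℝ := u.re * v.im - u.im * v.re

/-- If `B` lies strictly inside the triangle `A C D`, it is not a frontier point of a convex set
containing `A, C, D`. -/
theorem not_mem_frontier {A B C D : ℂ} (h1 : 0 < cr (C - B) (D - B)) (h2 : 0 < cr (D - B) (A - B))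
    (h3 : 0 < cr (A - B) (C - B)) {K : Set ℂ} (hK : Convex ℝ K) (hA : A ∈ K) (hC : C ∈ K)
    (hD : D ∈ K) : B ∉ frontier K := by
  intro hB
  have hsub : {Q : ℂ | 0 < cr (C - Q) (D - Q) ∧ 0 < cr (D - Q) (A - Q) ∧
      0 < cr (A - Q) (C - Q)} ⊆ K := by
    rintro Q ⟨q1, q2, q3⟩
    set S := cr (C - Q) (D - Q) + cr (D - Q) (A - Q) + cr (A - Q) (C - Q) with hS
    have hSpos : 0 < S := by positivity
    have hw := hK.sum_mem (t := (Finset.univ : Finset (Fin 3)))
      (w := ![cr (C - Q) (D - Q) / S, cr (D - Q) (A - Q) / S, cr (A - Q) (C - Q) / S])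
      (z := ![A, C, D])
      (by
        intro i _
        fin_cases i <;> simp <;> positivity)
      (by
        simp [Fin.sum_univ_three]
        rw [← add_div, ← add_div]
        exact div_self hSpos.ne')
      (by
        intro i _
        fin_cases i <;> simp [hA, hC, hD])
    have hQ : ∑ i : Fin 3, (![cr (C - Q) (D - Q) / S, cr (D - Q) (A - Q) / S,
        cr (A - Q) (C - Q) / S] : Fin 3 → ℝ) i • (![A, C, D] : Fin 3 → ℂ) i = Q := by
      simp only [Fin.sum_univ_three, Matrix.cons_val_zero, Matrix.cons_val_one,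
        Matrix.cons_val_two, Matrix.head_cons, Matrix.tail_cons]
      have hSne := hSpos.ne'
      apply Complex.ext
      · simp only [add_re, real_smul, re_ofReal_mul]
        field_simp
        rw [hS]
        simp only [cr, sub_re, sub_im]
        ring
      · simp only [add_im, real_smul, im_ofReal_mul]
        field_simp
        rw [hS]
        simp only [cr, sub_re, sub_im]
        ring
    rw [hQ] at hw
    exact hw
  have hcont : ∀ E F : ℂ, Continuous (fun Q : ℂ => cr (E - Q) (F - Q)) := by
    intro E F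
    unfold cr
    simp only [sub_re, sub_im]
    exact ((continuous_const.sub continuous_re).mul (continuous_const.sub continuous_im)).sub
      ((continuous_const.sub continuous_im).mul (continuous_const.sub continuous_re))
  have hopen : IsOpen {Q : ℂ | 0 < cr (C - Q) (D - Q) ∧ 0 < cr (D - Q) (A - Q) ∧
      0 < cr (A - Q) (C - Q)} :=
    (isOpen_lt continuous_const (hcont C D)).inter
      ((isOpen_lt continuous_const (hcont D A)).inter (isOpen_lt continuous_const (hcont A C)))
  have hint : B ∈ interior K := interior_maximal hsub hopen ⟨h1, h2, h3⟩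
  exact hB.2 hint

/-- the poles: `-1, 1, 3/2` at the places `j, j+1, j+2`, the others spaced by one -/
noncomputable def pole (j l : ℕ) : ℝ :=
  if l < j then (l : ℝ) - j - 1 else if l = j then -1 else if l = j + 1 then 1
    else (l : ℝ) - j - 1 / 2

/-- the residues: `2, 1/100, 1` at the places `j, j+1, j+2`, the others equal to `e` -/
noncomputable def resid (j : ℕ) (e : ℝ) (l : ℕ) : ℝ :=
  if l = j then 2 else if l = j + 1 then 1 / 100 else if l = j + 2 then 1 else e

theorem pole_lt (j l : ℕ) : pole j l < pole j (l + 1) := by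
  unfold pole
  have h0 : (0 : ℝ) ≤ l := Nat.cast_nonneg l
  have h1 : (0 : ℝ) ≤ j := Nat.cast_nonneg j
  rcases lt_trichotomy (l + 1) j with h | h | h
  · rw [if_pos (by omega), if_pos h]
    push_cast; linarith
  · rw [if_pos (by omega), if_neg (by omega), if_pos h]
    have : (l : ℝ) + 1 = j := by exact_mod_cast h
    linarith
  · rcases Nat.lt_or_ge l j with h' | h'
    · omega
    · rcases Nat.eq_or_lt_of_le h' with h2 | h2
      · subst h2
        simp
      · rcases Nat.eq_or_lt_of_le (show j + 1 ≤ l from h2) with h3 | h3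
        · subst h3
          rw [if_neg (by omega), if_neg (by omega), if_pos rfl, if_neg (by omega),
            if_neg (by omega), if_neg (by omega)]
          push_cast
          linarith
        · rw [if_neg (by omega), if_neg (by omega), if_neg (by omega), if_neg (by omega),
            if_neg (by omega), if_neg (by omega)]
          push_cast
          linarith

theorem pole_strictMono (j : ℕ) : StrictMono (pole j) := strictMono_nat_of_lt_succ (pole_lt j)

theorem pole_j (j : ℕ) : pole j j = -1 := by simp [pole]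
theorem pole_j1 (j : ℕ) : pole j (j + 1) = 1 := by simp [pole]
theorem pole_j2 (j : ℕ) : pole j (j + 2) = 3 / 2 := by
  simp [pole]
  norm_num

/-- the value of `R` for `e = 0` -/
theorem R_zero {k j : ℕ} (hj : j + 2 < k) (z : ℂ) :
    R k (fun l => pole j l) (fun l => resid j 0 l) z
      = 2 / (z + 1) + (1 / 100) / (z - 1) + 1 / (z - 3 / 2) := by
  unfold R
  have h : ∀ l : Fin k, ((resid j 0 l : ℝ) : ℂ) / (z - ((pole j l : ℝ) : ℂ))
      = (if l = (⟨j, by omega⟩ : Fin k) then 2 / (z + 1) else 0)
        + (if l = (⟨j + 1, by omega⟩ : Fin k) then (1 / 100) / (z - 1) else 0)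
        + (if l = (⟨j + 2, by omega⟩ : Fin k) then 1 / (z - 3 / 2) else 0) := by
    intro l
    by_cases h1 : (l : ℕ) = j
    · have e1 : l = (⟨j, by omega⟩ : Fin k) := Fin.ext h1
      rw [if_pos e1, if_neg, if_neg, h1, pole_j]
      · simp [resid]
      · intro h; have := congrArg Fin.val h; simp at this; omega
      · intro h; have := congrArg Fin.val h; simp at this; omega
    · by_cases h2 : (l : ℕ) = j + 1
      · have e1 : l = (⟨j + 1, by omega⟩ : Fin k) := Fin.ext h2
        rw [if_neg, if_pos e1, if_neg, h2, pole_j1]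
        · simp [resid]
        · intro h; have := congrArg Fin.val h; simp at this; omega
        · intro h; have := congrArg Fin.val h; simp at this; omega
      · by_cases h3 : (l : ℕ) = j + 2
        · have e1 : l = (⟨j + 2, by omega⟩ : Fin k) := Fin.ext h3
          rw [if_neg, if_neg, if_pos e1, h3, pole_j2]
          · simp [resid]
          · intro h; have := congrArg Fin.val h; simp at this; omega
          · intro h; have := congrArg Fin.val h; simp at this; omega
        · rw [if_neg, if_neg, if_neg]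
          · simp [resid, h1, h2, h3]
          · intro h; exact h3 (by rw [h])
          · intro h; exact h2 (by rw [h])
          · intro h; exact h1 (by rw [h])
  rw [Finset.sum_congr rfl (fun l _ => h l), Finset.sum_add_distrib, Finset.sum_add_distrib]
  simp

/-- continuity in the small residues -/
theorem R_cont {k : ℕ} (j : ℕ) (z : ℂ) :
    Continuous (fun e : ℝ => R k (fun l => pole j l) (fun l => resid j e l) z) := by
  unfold R
  refine continuous_finsetSum _ (fun l _ => ?_)
  refine Continuous.div_const ?_ _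
  refine continuous_ofReal.comp ?_
  unfold resid
  by_cases h1 : (l : ℕ) = j
  · simp only [h1, if_true]; exact continuous_const
  · by_cases h2 : (l : ℕ) = j + 1
    · simp only [h2, if_true, if_false, add_eq_left, one_ne_zero]
      exact continuous_const
    · by_cases h3 : (l : ℕ) = j + 2
      · simp [h3]; exact continuous_const
      · simp only [h1, h2, h3, if_false]; exact continuous_id

/-- the four points of the unit circle -/
noncomputable def zA : ℂ := ⟨899 / 901, 60 / 901⟩
noncomputable def zB : ℂ := ⟨99 / 101, 20 / 101⟩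
noncomputable def zC : ℂ := ⟨-99 / 101, 20 / 101⟩
noncomputable def zD : ℂ := ⟨0, 1⟩

theorem inv_eq (x y a : ℝ) (c : ℂ) (hc : c = (a : ℂ)) (u v : ℝ)
    (hu : u * ((x - a) ^ 2 + y ^ 2) = x - a) (hv : v * ((x - a) ^ 2 + y ^ 2) = -y)
    (hn : (x - a) ^ 2 + y ^ 2 ≠ 0) : 1 / ((⟨x, y⟩ : ℂ) - c) = ⟨u, v⟩ := by
  have hne : ((⟨x, y⟩ : ℂ) - c) ≠ 0 := by
    intro h
    apply hn
    have h1 := congrArg Complex.re h
    have h2 := congrArg Complex.im h
    rw [hc] at h1 h2
    simp at h1 h2
    rw [h1, h2]; ring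
  have key : ((x - a) ^ 2 + y ^ 2) * (u * (x - a) - v * y - 1) = 0 := by
    linear_combination (x - a) * hu - y * hv
  have key2 : ((x - a) ^ 2 + y ^ 2) * (u * y + v * (x - a)) = 0 := by
    linear_combination y * hu + (x - a) * hv
  have k1 := (mul_eq_zero.mp key).resolve_left hn
  have k2 := (mul_eq_zero.mp key2).resolve_left hn
  rw [div_eq_iff hne, hc]
  apply Complex.ext
  · simp; linarith
  · simp; linarith

/-- evaluation of the three-pole function from the three reciprocals -/
theorem eval {x y u1 v1 u2 v2 u3 v3 : ℝ}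
    (h1 : 1 / ((⟨x, y⟩ : ℂ) - (-1)) = ⟨u1, v1⟩) (h2 : 1 / ((⟨x, y⟩ : ℂ) - 1) = ⟨u2, v2⟩)
    (h3 : 1 / ((⟨x, y⟩ : ℂ) - 3 / 2) = ⟨u3, v3⟩) :
    2 / ((⟨x, y⟩ : ℂ) + 1) + (1 / 100) / ((⟨x, y⟩ : ℂ) - 1) + 1 / ((⟨x, y⟩ : ℂ) - 3 / 2)
      = ⟨2 * u1 + u2 / 100 + u3, 2 * v1 + v2 / 100 + v3⟩ := by
  have e1 : 2 / ((⟨x, y⟩ : ℂ) + 1) = 2 * (1 / ((⟨x, y⟩ : ℂ) - (-1))) := by
    rw [sub_neg_eq_add]; ring
  have e2 : (1 / 100) / ((⟨x, y⟩ : ℂ) - 1) = (1 / 100) * (1 / ((⟨x, y⟩ : ℂ) - 1)) := by ring
  rw [e1, e2, h1, h2, h3]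
  apply Complex.ext
  · simp
    norm_num
    ring
  · simp
    norm_num
    ring

theorem evA : 2 / (zA + 1) + (1 / 100) / (zA - 1) + 1 / (zA - 3 / 2)
    = ⟨-7117 / 7400, -983 / 2220⟩ := by
  unfold zA
  rw [eval (u1 := 1 / 2) (v1 := -1 / 60) (u2 := -1 / 2) (v2 := -15) (u3 := -362 / 185)
    (v3 := -48 / 185)]
  · norm_num
  · exact inv_eq _ _ (-1) _ (by norm_num) _ _ (by norm_num) (by norm_num) (by norm_num)
  · exact inv_eq _ _ 1 _ (by norm_num) _ _ (by norm_num) (by norm_num) (by norm_num)
  · exact inv_eq _ _ (3 / 2) _ (by norm_num) _ _ (by norm_num) (by norm_num) (by norm_num)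

theorem evB : 2 / (zB + 1) + (1 / 100) / (zB - 1) + 1 / (zB - 3 / 2)
    = ⟨-137 / 200, -79 / 100⟩ := by
  unfold zB
  rw [eval (u1 := 1 / 2) (v1 := -1 / 20) (u2 := -1 / 2) (v2 := -5) (u3 := -42 / 25)
    (v3 := -16 / 25)]
  · norm_num
  · exact inv_eq _ _ (-1) _ (by norm_num) _ _ (by norm_num) (by norm_num) (by norm_num)
  · exact inv_eq _ _ 1 _ (by norm_num) _ _ (by norm_num) (by norm_num) (by norm_num)
  · exact inv_eq _ _ (3 / 2) _ (by norm_num) _ _ (by norm_num) (by norm_num) (by norm_num)

theorem evC : 2 / (zC + 1) + (1 / 100) / (zC - 1) + 1 / (zC - 3 / 2)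
    = ⟨297299 / 500200, -50182501 / 5002000⟩ := by
  unfold zC
  rw [eval (u1 := 1 / 2) (v1 := -5) (u2 := -1 / 2) (v2 := -1 / 20) (u3 := -1002 / 2501)
    (v3 := -80 / 2501)]
  · norm_num
  · exact inv_eq _ _ (-1) _ (by norm_num) _ _ (by norm_num) (by norm_num) (by norm_num)
  · exact inv_eq _ _ 1 _ (by norm_num) _ _ (by norm_num) (by norm_num) (by norm_num)
  · exact inv_eq _ _ (3 / 2) _ (by norm_num) _ _ (by norm_num) (by norm_num) (by norm_num)

theorem evD : 2 / (zD + 1) + (1 / 100) / (zD - 1) + 1 / (zD - 3 / 2)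
    = ⟨1387 / 2600, -3413 / 2600⟩ := by
  unfold zD
  rw [eval (u1 := 1 / 2) (v1 := -1 / 2) (u2 := -1 / 2) (v2 := -1 / 2) (u3 := -6 / 13)
    (v3 := -4 / 13)]
  · norm_num
  · exact inv_eq _ _ (-1) _ (by norm_num) _ _ (by norm_num) (by norm_num) (by norm_num)
  · exact inv_eq _ _ 1 _ (by norm_num) _ _ (by norm_num) (by norm_num) (by norm_num)
  · exact inv_eq _ _ (3 / 2) _ (by norm_num) _ _ (by norm_num) (by norm_num) (by norm_num)

theorem mem_circle {x y : ℝ} (h : x ^ 2 + y ^ 2 = 1) (hy : 0 < y) :
    (⟨x, y⟩ : ℂ) ∈ upperHalfCircle (-1) 1 := by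
  refine ⟨?_, hy⟩
  norm_num
  rw [Complex.norm_def, normSq_apply]
  simp only
  rw [show x * x + y * y = 1 by linarith]
  simp

theorem mirror_mem {a b : ℝ} {z : ℂ} (hz : z ∈ upperHalfCircle a b) :
    -(starRingEnd ℂ) z ∈ upperHalfCircle (-b) (-a) := by
  obtain ⟨h1, h2⟩ := hz
  refine ⟨?_, by simpa using h2⟩
  have : -(starRingEnd ℂ) z - (((-b + -a) / 2 : ℝ) : ℂ)
      = -((starRingEnd ℂ) (z - (((a + b) / 2 : ℝ) : ℂ))) := by
    rw [map_sub, conj_ofReal]; push_cast; ring
  rw [this, norm_neg, norm_conj, h1]; ring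

/-- the construction when there is a pole to the right of `p_{j+1}` -/
theorem right_case {k j : ℕ} (hj : j + 2 < k) :
    ∃ p α : Fin k → ℝ, StrictMono p ∧ (∀ l, 0 < α l) ∧
      ∀ K : Set ℂ, IsClosed K → Convex ℝ K →
        R k p α '' upperHalfCircle (p ⟨j, by omega⟩) (p ⟨j + 1, by omega⟩) ≠ frontier K := by
  set Re : ℝ → ℂ → ℂ := fun e z => R k (fun l => pole j l) (fun l => resid j e l) z with hRe
  have hcont : ∀ z w z' w' : ℂ, Continuous (fun e : ℝ =>
      cr (Re e z - Re e w) (Re e z' - Re e w')) := by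
    intro z w z' w'
    have c := fun z => R_cont (k := k) j z
    unfold cr
    exact ((continuous_re.comp ((c z).sub (c w))).mul
      (continuous_im.comp ((c z').sub (c w')))).sub
      ((continuous_im.comp ((c z).sub (c w))).mul (continuous_re.comp ((c z').sub (c w'))))
  have h1 : ∀ᶠ e in 𝓝 (0 : ℝ), 0 < cr (Re e zC - Re e zB) (Re e zD - Re e zB) := by
    refine (hcont zC zB zD zB).tendsto 0 |>.eventually (lt_mem_nhds ?_)
    simp only [hRe]
    rw [R_zero hj, R_zero hj, R_zero hj, evB, evC, evD]
    simp only [cr, sub_re, sub_im]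
    norm_num
  have h2 : ∀ᶠ e in 𝓝 (0 : ℝ), 0 < cr (Re e zD - Re e zB) (Re e zA - Re e zB) := by
    refine (hcont zD zB zA zB).tendsto 0 |>.eventually (lt_mem_nhds ?_)
    simp only [hRe]
    rw [R_zero hj, R_zero hj, R_zero hj, evB, evA, evD]
    simp only [cr, sub_re, sub_im]
    norm_num
  have h3 : ∀ᶠ e in 𝓝 (0 : ℝ), 0 < cr (Re e zA - Re e zB) (Re e zC - Re e zB) := by
    refine (hcont zA zB zC zB).tendsto 0 |>.eventually (lt_mem_nhds ?_)
    simp only [hRe]
    rw [R_zero hj, R_zero hj, R_zero hj, evB, evA, evC]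
    simp only [cr, sub_re, sub_im]
    norm_num
  have hall : ∀ᶠ e in 𝓝[>] (0 : ℝ), (0 < cr (Re e zC - Re e zB) (Re e zD - Re e zB) ∧
      0 < cr (Re e zD - Re e zB) (Re e zA - Re e zB) ∧
      0 < cr (Re e zA - Re e zB) (Re e zC - Re e zB)) ∧ 0 < e :=
    ((h1.and (h2.and h3)).filter_mono nhdsWithin_le_nhds).and
      (eventually_mem_nhdsWithin)
  obtain ⟨e, ⟨g1, g2, g3⟩, he⟩ := hall.exists
  refine ⟨fun l => pole j l, fun l => resid j e l, ?_, ?_, ?_⟩
  · intro a b hab
    exact pole_strictMono j hab
  · intro l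
    simp only [resid]
    split_ifs
    · norm_num
    · norm_num
    · norm_num
    · exact he
  · intro K hKc hK hEq
    have hmem : ∀ z : ℂ, z ∈ upperHalfCircle (-1) 1 → Re e z ∈ frontier K := by
      intro z hz
      rw [← hEq]
      refine ⟨z, ?_, rfl⟩
      simp only [pole_j, pole_j1]
      exact hz
    have hfr : frontier K ⊆ K := hKc.frontier_subset
    have mA : Re e zA ∈ frontier K := hmem _ (mem_circle (by norm_num) (by norm_num))
    have mB : Re e zB ∈ frontier K := hmem _ (mem_circle (by norm_num) (by norm_num))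
    have mC : Re e zC ∈ frontier K := hmem _ (mem_circle (by norm_num) (by norm_num))
    have mD : Re e zD ∈ frontier K := hmem _ (mem_circle (by norm_num) (by norm_num))
    exact not_mem_frontier g1 g2 g3 hK (hfr mA) (hfr mC) (hfr mD) mB

/-- **Disproof of Q1, in a strong form.** For every `k ≥ 3` and every `j` with `j + 1 < k`
(indices starting at `0`) there are poles `p_0 < ... < p_{k-1}` and positive residues such that
the image under `R` of the open upper half of the circle with diameter `[p_j, p_{j+1}]` is not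
the boundary of any closed convex subset of the plane. -/
theorem result : ∀ k : ℕ, 3 ≤ k → ∀ (j : ℕ) (hj : j + 1 < k),
    ∃ p α : Fin k → ℝ, StrictMono p ∧ (∀ l, 0 < α l) ∧
      ∀ K : Set ℂ, IsClosed K → Convex ℝ K →
        R k p α '' upperHalfCircle (p ⟨j, by omega⟩) (p ⟨j + 1, hj⟩) ≠ frontier K := by
  intro k hk j hj
  rcases Nat.lt_or_ge (j + 2) k with h | h
  · exact right_case h
  · -- mirror image of the case `j = 0`
    obtain ⟨p, α, hp, hα, H⟩ := right_case (k := k) (j := 0) (by omega)
    refine ⟨fun l => -p (Fin.rev l), fun l => α (Fin.rev l), ?_, fun l => hα _, ?_⟩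
    · intro a b hab
      have := hp (Fin.rev_lt_rev.mpr hab)
      simp only
      linarith
    · intro K hKc hK hEq
      set T : ℂ → ℂ := fun z => -(starRingEnd ℂ) z with hT
      have hTT : ∀ z, T (T z) = z := by intro z; simp [hT]
      have hTc : Continuous T := (continuous_conj).neg
      let Th : ℂ ≃ₜ ℂ := 
        { toFun := T, invFun := T, left_inv := hTT, right_inv := hTT,
          continuous_toFun := hTc, continuous_invFun := hTc }
      have hR : ∀ z, R k (fun l => -p (Fin.rev l)) (fun l => α (Fin.rev l)) (T z)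
          = T (R k p α z) := by
        intro z
        unfold R
        rw [hT]
        simp only [map_sum, ← Finset.sum_neg_distrib]
        rw [← Equiv.sum_comp Fin.revPerm]
        refine Finset.sum_congr rfl (fun l _ => ?_)
        simp only [Fin.revPerm_apply, Fin.rev_rev, map_div₀, map_sub, conj_ofReal, ofReal_neg]
        rw [show -(starRingEnd ℂ) z - -(p l : ℂ) = -((starRingEnd ℂ) z - p l) by ring, div_neg]
      have e0 : (⟨0, by omega⟩ : Fin k) = Fin.rev ⟨j + 1, hj⟩ := by
        apply Fin.ext; simp [Fin.rev]; omega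
      have e1 : (⟨0 + 1, by omega⟩ : Fin k) = Fin.rev ⟨j, by omega⟩ := by
        apply Fin.ext; simp [Fin.rev]; omega
      apply H (T '' K)
      · exact Th.isClosedMap K hKc
      · have : T = (fun z => -z) ∘ (conjLIE : ℂ → ℂ) := rfl
        intro x hx y hy a b ha hb hab
        obtain ⟨x', hx', rfl⟩ := hx
        obtain ⟨y', hy', rfl⟩ := hy
        refine ⟨a • x' + b • y', hK hx' hy' ha hb hab, ?_⟩
        simp only [hT, real_smul, map_add, map_mul, conj_ofReal]
        ring
      · have hfr : frontier (T '' K) = T '' frontier K := (Th.image_frontier K).symm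
        rw [hfr, ← hEq]
        ext w
        constructor
        · rintro ⟨z, hz, rfl⟩
          refine ⟨R k (fun l => -p (Fin.rev l)) (fun l => α (Fin.rev l)) (T z),
            ⟨T z, ?_, rfl⟩, ?_⟩
          · rw [e0, e1] at hz
            exact mirror_mem hz
          · rw [hR, hTT]
        · rintro ⟨_, ⟨z, hz, rfl⟩, rfl⟩
          refine ⟨T z, ?_, ?_⟩
          · rw [e0, e1]
            have := mirror_mem hz
            rw [neg_neg, neg_neg] at this
            exact this
          · have := hR (T z)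
            rw [hTT] at this
            rw [this, hTT]

end Pool.Agent.Results.MP_8e2370_an.HalfCircleNotConvex
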